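import Pool.Agent.V1174.CovP.Sub

set_option autoImplicit false

namespace Pool.Agent.V1174.CovP

universe u

section basic
variable {G : Type u} [Group G]

/-- the set of `K`-conjugates of `z` -/
def cls (z : G) (K : Subgroup G) : Set G := {y | ∃ k ∈ K, y = k * z * k⁻¹}

/-- `K` contains `z` and is generated by the `K`-conjugates of `z` -/
def Good (z : G) (K : Subgroup G) : Prop := z ∈ K ∧ K ≤ Subgroup.closure (cls z K)

theorem cls_mono {z : G} {K L : Subgroup G} (h : K ≤ L) : cls z K ⊆ cls z L := by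
  rintro y ⟨k, hk, rfl⟩
  exact ⟨k, h hk, rfl⟩

theorem good_sSup {z : G} {𝒦 : Set (Subgroup G)} (hne : 𝒦.Nonempty) (h : ∀ K ∈ 𝒦, Good z K) :
    Good z (sSup 𝒦) := by
  constructor
  · obtain ⟨K, hK⟩ := hne
    exact le_sSup hK (h K hK).1
  · refine sSup_le fun K hK => ?_
    exact (h K hK).2.trans (Subgroup.closure_mono (cls_mono (le_sSup hK)))

theorem good_zpowers (z : G) : Good z (Subgroup.zpowers z) := by
  refine ⟨Subgroup.mem_zpowers z, ?_⟩
  rw [Subgroup.zpowers_le]
  exact Subgroup.subset_closure ⟨1, Subgroup.one_mem _, by simp⟩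

theorem good_cj {z : G} {K : Subgroup G} (g : G) (h : Good z K) : Good (g * z * g⁻¹) (cj g K) := by
  constructor
  · rw [mem_cj]
    have e : g⁻¹ * (g * z * g⁻¹) * g = z := by group
    rw [e]; exact h.1
  · rw [cj_le_iff]
    refine h.2.trans ?_
    rw [Subgroup.closure_le]
    rintro y ⟨k, hk, rfl⟩
    show k * z * k⁻¹ ∈ cj g⁻¹ _
    rw [mem_cj]
    refine Subgroup.subset_closure ⟨g * k * g⁻¹, ?_, ?_⟩
    · rw [mem_cj]
      have e : g⁻¹ * (g * k * g⁻¹) * g = k := by group
      rw [e]; exact hk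
    · group

theorem isCoatom_cj {g : G} {H : Subgroup G} (h : IsCoatom H) : IsCoatom (cj g H) := by
  constructor
  · intro h0
    exact h.1 (cj_eq_top.1 h0)
  · intro K hK
    have h1 : H < cj g⁻¹ K := by
      refine lt_of_le_of_ne (cj_le_iff.1 hK.le) ?_
      intro h1
      apply hK.ne
      rw [h1, cj_cj_inv]
    exact cj_eq_top.1 (h.2 _ h1)

end basic

/-- the induction statement -/
theorem main (p : ℕ) (hp : p.Prime) (n : ℕ) : ∀ (G : Type u) [Group G] [Finite G],
    Nat.card G ≤ n → ∀ x : G, x ≠ 1 → (∃ m : ℕ, x ^ (p ^ m) = 1) →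
    Subgroup.closure (cls x ⊤) = ⊤ → ∀ 𝓗 : Finset (Subgroup G), 𝓗.card ≤ p →
    (∀ H ∈ 𝓗, H ≠ ⊤) → (∀ g : G, ∃ H ∈ 𝓗, g * x * g⁻¹ ∈ H) → False := by
  induction n with
  | zero =>
    intro G _ _ hn
    have : 0 < Nat.card G := Nat.card_pos
    omega
  | succ n ih =>
    intro G _ _ hn x hx1 ⟨m, hxm⟩ hgen 𝓗₀ hc₀ hprop₀ hcov₀
    classical
    -- absorbing property
    -- covers by maximal subgroups of minimal size
    let Cov : Finset (Subgroup G) → Prop := fun 𝓗 =>
      (∀ H ∈ 𝓗, IsCoatom H) ∧ ∀ g : G, ∃ H ∈ 𝓗, g * x * g⁻¹ ∈ H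
    have hex : ∃ k, ∃ 𝓗, Cov 𝓗 ∧ 𝓗.card = k ∧ k ≤ p := by
      have hch : ∀ H : Subgroup G, ∃ M : Subgroup G, H ≠ ⊤ → IsCoatom M ∧ H ≤ M := by
        intro H
        by_cases hH : H = ⊤
        · exact ⟨⊤, fun h => absurd hH h⟩
        · obtain ⟨M, h1, h2⟩ := (eq_top_or_exists_le_coatom H).resolve_left hH
          exact ⟨M, fun _ => ⟨h1, h2⟩⟩
      choose f hf using hch
      refine ⟨_, 𝓗₀.image f, ⟨?_, ?_⟩, rfl, Finset.card_image_le.trans hc₀⟩
      · intro H hH
        obtain ⟨K, hK, rfl⟩ := Finset.mem_image.1 hH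
        exact (hf K (hprop₀ K hK)).1
      · intro g
        obtain ⟨H, hH, hg⟩ := hcov₀ g
        exact ⟨f H, Finset.mem_image_of_mem _ hH, (hf H (hprop₀ H hH)).2 hg⟩
    obtain ⟨𝓗, ⟨hco, hcov⟩, hk, hkp⟩ := Nat.find_spec hex
    have hmin : ∀ 𝓗', Cov 𝓗' → 𝓗.card ≤ 𝓗'.card := by
      intro 𝓗' h'
      by_contra hlt
      push Not at hlt
      have := Nat.find_min hex (m := 𝓗'.card) (by rw [← hk]; exact hlt)
      exact this ⟨𝓗', h', rfl, by omega⟩
    have hcp : 𝓗.card ≤ p := by rw [hk]; exact hkp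
    -- absorbing property
    have habs : ∀ K : Subgroup G, K ≠ ⊤ → ∀ g : G, Good (g * x * g⁻¹) K → ∃ H ∈ 𝓗, K ≤ H := by
      intro K hK g hgood
      by_contra hcon
      push Not at hcon
      have hcard : Nat.card K ≤ n := by
        by_contra hlt
        exact hK (Subgroup.eq_top_of_le_card K (by omega))
      refine ih K hcard ⟨g * x * g⁻¹, hgood.1⟩ ?_ ?_ ?_ (𝓗.image fun H => H.subgroupOf K) ?_ ?_ ?_
      · intro h
        have h1 : g * x * g⁻¹ = 1 := congrArg Subtype.val h
        apply hx1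
        have h2 : x = g⁻¹ * (g * x * g⁻¹) * g := by group
        rw [h2, h1]; group
      · refine ⟨m, ?_⟩
        apply Subtype.ext
        show (g * x * g⁻¹) ^ (p ^ m) = 1
        rw [conj_pow, hxm]; group
      · rw [eq_top_iff]
        rintro ⟨y, hy⟩ -
        have h1 := hgood.2 hy
        have h2 : (Subgroup.closure (cls (⟨g * x * g⁻¹, hgood.1⟩ : K) ⊤)).map K.subtype
            = Subgroup.closure (cls (g * x * g⁻¹) K) := by
          rw [MonoidHom.map_closure]
          congr 1
          ext z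
          constructor
          · rintro ⟨w, ⟨k, -, rfl⟩, rfl⟩
            exact ⟨k, k.2, rfl⟩
          · rintro ⟨k, hk, rfl⟩
            exact ⟨_, ⟨⟨k, hk⟩, Subgroup.mem_top _, rfl⟩, rfl⟩
        rw [← h2] at h1
        obtain ⟨w, hw, hwy⟩ := h1
        have : w = ⟨y, hy⟩ := Subtype.ext hwy
        rwa [this] at hw
      · exact Finset.card_image_le.trans hcp
      · intro H' hH'
        obtain ⟨H, hH, rfl⟩ := Finset.mem_image.1 hH'
        intro h
        exact hcon H hH (Subgroup.subgroupOf_eq_top.1 h)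
      · intro k
        obtain ⟨H, hH, hm⟩ := hcov ((k : G) * g)
        refine ⟨H.subgroupOf K, Finset.mem_image_of_mem _ hH, ?_⟩
        rw [Subgroup.mem_subgroupOf]
        show (k : G) * (g * x * g⁻¹) * (k : G)⁻¹ ∈ H
        have e : (k : G) * (g * x * g⁻¹) * (k : G)⁻¹ = ((k : G) * g) * x * ((k : G) * g)⁻¹ := by group
        rw [e]; exact hm
    -- an element covered only once
    obtain ⟨H₁, hH₁, -⟩ := hcov 1
    obtain ⟨g₀, hg₀⟩ : ∃ g₀ : G, ∀ H ∈ 𝓗, g₀ * x * g₀⁻¹ ∈ H → H = H₁ := by
      by_contra hcon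
      push Not at hcon
      have hc : Cov (𝓗.erase H₁) := by
        refine ⟨fun H hH => hco H (Finset.mem_of_mem_erase hH), fun g => ?_⟩
        obtain ⟨H, h1, h2, h3⟩ := hcon g
        exact ⟨H, Finset.mem_erase.2 ⟨h3, h1⟩, h2⟩
      have h1 := hmin _ hc
      have h2 := Finset.card_erase_lt_of_mem hH₁
      omega
    set a := g₀ * x * g₀⁻¹ with ha
    have haH : a ∈ H₁ := by
      obtain ⟨H, h1, h2⟩ := hcov g₀
      have := hg₀ H h1 h2
      rwa [this] at h2
    have haa : ∀ g : G, g * a * g⁻¹ = (g * g₀) * x * (g * g₀)⁻¹ := by intro g; rw [ha]; group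
    have hcova : ∀ g : G, ∃ H ∈ 𝓗, g * a * g⁻¹ ∈ H := by
      intro g; rw [haa]; exact hcov _
    have hgena : Subgroup.closure (cls a ⊤) = ⊤ := by
      refine eq_top_iff.2 (hgen.ge.trans (Subgroup.closure_mono ?_))
      rintro y ⟨k, -, rfl⟩
      refine ⟨k * g₀⁻¹, Subgroup.mem_top _, ?_⟩
      rw [ha]; group
    -- all proper good subgroups for `a` lie in `H₁`
    have hgoodH : ∀ K : Subgroup G, K ≠ ⊤ → Good a K → K ≤ H₁ := by
      intro K hK hg
      obtain ⟨H, hH, hle⟩ := habs K hK g₀ hg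
      have := hg₀ H hH (hle hg.1)
      rwa [this] at hle
    have hH₁top : H₁ ≠ ⊤ := (hco H₁ hH₁).1
    set 𝒢 : Set (Subgroup G) := {K | K ≠ ⊤ ∧ Good a K} with h𝒢
    have h𝒢ne : 𝒢.Nonempty := by
      refine ⟨Subgroup.zpowers a, ?_, good_zpowers a⟩
      intro h
      apply hH₁top
      rw [eq_top_iff, ← h, Subgroup.zpowers_le]
      exact haH
    set M := sSup 𝒢 with hM
    have hMgood : Good a M := good_sSup h𝒢ne fun K hK => hK.2
    have hMH : M ≤ H₁ := sSup_le fun K hK => hgoodH K hK.1 hK.2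
    have hMtop : M ≠ ⊤ := by
      intro h
      apply hH₁top
      rw [eq_top_iff, ← h]; exact hMH
    have hMmax : ∀ K : Subgroup G, K ≠ ⊤ → Good a K → K ≤ M := fun K h1 h2 => le_sSup ⟨h1, h2⟩
    -- subnormality
    have hclst : ∀ L : Subgroup G, L ≤ st (Subgroup.closure (cls a L)) := by
      intro L l hl
      have key : ∀ l ∈ L, cj l (Subgroup.closure (cls a L)) ≤ Subgroup.closure (cls a L) := by
        intro l hl
        rw [cj_le_iff, Subgroup.closure_le]
        rintro y ⟨k, hk, rfl⟩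
        show k * a * k⁻¹ ∈ cj l⁻¹ _
        rw [mem_cj]
        refine Subgroup.subset_closure ⟨l * k, L.mul_mem hl hk, ?_⟩
        group
      rw [mem_st]
      exact cj_eq_of_le (key l hl)
    have hsub : ∀ L : Subgroup G, L ≠ ⊤ → M ≤ L → Sn M L := by
      intro L
      induction L using WellFoundedLT.induction with
      | ind L ihL =>
        intro hL hML
        set N := Subgroup.closure (cls a L) with hN
        have haL : a ∈ L := hML hMgood.1
        have hNL : N ≤ L := by
          rw [hN, Subgroup.closure_le]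
          rintro y ⟨k, hk, rfl⟩
          exact L.mul_mem (L.mul_mem hk haL) (L.inv_mem hk)
        have hMN : M ≤ N := hMgood.2.trans (Subgroup.closure_mono (cls_mono hML))
        by_cases hNL' : N = L
        · have : Good a L := ⟨haL, by rw [← hN, hNL']⟩
          have h1 : L ≤ M := hMmax L hL this
          rw [le_antisymm hML h1]
          exact Sn.refl
        · have hlt : N < L := lt_of_le_of_ne hNL hNL'
          have hNtop : N ≠ ⊤ := fun h => hL (by rw [eq_top_iff, ← h]; exact hNL)
          exact Sn.step _ _ (ihL N hlt hNtop hMN) hNL (hclst L)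
    have hnsub : ¬ Sn M ⊤ := by
      intro h
      rcases h.nc_lt with h1 | h1
      · exact hMtop h1
      · apply h1.ne
        refine eq_top_iff.2 (hgena.ge.trans ?_)
        rw [Subgroup.closure_le]
        rintro y ⟨k, -, rfl⟩
        have h2 : a ∈ nc M ⊤ := le_nc M ⊤ hMgood.1
        have h3 : k ∈ st (nc M ⊤) := st_nc' (Subgroup.mem_top k)
        rw [mem_st] at h3
        show k * a * k⁻¹ ∈ nc M ⊤
        rw [← h3, mem_cj]
        have e : k⁻¹ * (k * a * k⁻¹) * k = a := by group
        rw [e]; exact h2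
    have huniq := zipper M hsub hnsub
    -- conjugates of `H₁` belong to the cover
    have hconj : ∀ g : G, cj g H₁ ∈ 𝓗 := by
      intro g
      obtain ⟨H, hH, hle⟩ := habs (cj g M) (fun h => hMtop (cj_eq_top.1 h)) (g * g₀)
        (by rw [← haa]; exact good_cj g hMgood)
      have h1 : M ≤ cj g⁻¹ H := cj_le_iff.1 hle
      have h2 : cj g⁻¹ H = H₁ := huniq _ _ (isCoatom_cj (hco H hH)) (hco H₁ hH₁) h1 hMH
      rw [← h2, cj_cj_inv]; exact hH
    -- `a` fixes all conjugates of `H₁`
    have ham : a ^ (p ^ m) = 1 := by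
      rw [ha, conj_pow, hxm]; group
    have hit : ∀ (j : ℕ) (V : Subgroup G), (cj a)^[j] V = cj (a ^ j) V := by
      intro j
      induction j with
      | zero => intro V; rw [pow_zero, cj_one]; rfl
      | succ j ihj =>
        intro V
        rw [Function.iterate_succ_apply, ihj, ← cj_mul, pow_succ]
    have hfixW : cj a H₁ = H₁ := mem_st.1 (le_st H₁ haH)
    have hfix : ∀ g : G, cj a (cj g H₁) = cj g H₁ := by
      intro g
      set V := cj g H₁ with hV
      by_contra hne
      have hper : Function.IsPeriodicPt (cj a) (p ^ m) V := by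
        show (cj a)^[p ^ m] V = V
        rw [hit, ham, cj_one]
      obtain ⟨j, hj, hjeq⟩ := (Nat.dvd_prime_pow hp).1 hper.minimalPeriod_dvd
      have hj0 : j ≠ 0 := by
        rintro rfl
        rw [pow_zero, Function.minimalPeriod_eq_one_iff_isFixedPt] at hjeq
        exact hne hjeq
      have hple : p ≤ Function.minimalPeriod (cj a) V := by
        rw [hjeq]
        exact Nat.le_self_pow hj0 p
      -- p + 1 distinct members
      have hinj : Set.InjOn (fun i => (cj a)^[i] V) (Finset.range p : Set ℕ) := by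
        intro i hi i' hi' h
        have hi1 : i < p := by simpa using hi
        have hi2 : i' < p := by simpa using hi'
        exact Function.iterate_injOn_Iio_minimalPeriod (by simpa using (by omega : i < _))
          (by simpa using (by omega : i' < _)) h
      have hmem : ∀ i, (cj a)^[i] V ∈ 𝓗 := by
        intro i
        rw [hit, hV, ← cj_mul]
        exact hconj _
      have hneW : ∀ i, (cj a)^[i] V ≠ H₁ := by
        intro i h
        rw [hit] at h
        have h2 : V = H₁ := by
          have h3 : cj (a ^ i) H₁ = H₁ := mem_st.1 (le_st H₁ (H₁.pow_mem haH i))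
          exact cj_inj (h.trans h3.symm)
        rw [h2] at hne
        exact hne hfixW
      have hcard : (insert H₁ ((Finset.range p).image fun i => (cj a)^[i] V)).card ≤ 𝓗.card := by
        apply Finset.card_le_card
        intro W hW
        rcases Finset.mem_insert.1 hW with rfl | hW
        · exact hH₁
        · obtain ⟨i, -, rfl⟩ := Finset.mem_image.1 hW
          exact hmem i
      rw [Finset.card_insert_of_notMem, Finset.card_image_of_injOn hinj, Finset.card_range] at hcard
      · omega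
      · intro h
        obtain ⟨i, -, h⟩ := Finset.mem_image.1 h
        exact hneW i h
    -- hence `H₁` is normal
    have hnorm : st H₁ = ⊤ := by
      refine eq_top_iff.2 (hgena.ge.trans ?_)
      rw [Subgroup.closure_le]
      rintro y ⟨k, -, rfl⟩
      show k * a * k⁻¹ ∈ st H₁
      rw [mem_st, cj_mul, cj_mul, hfix k⁻¹, cj_cj_inv]
    apply hH₁top
    refine eq_top_iff.2 (hgena.ge.trans ?_)
    rw [Subgroup.closure_le]
    rintro y ⟨k, -, rfl⟩
    show k * a * k⁻¹ ∈ H₁
    have h3 : k ∈ st H₁ := by rw [hnorm]; exact Subgroup.mem_top k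
    rw [mem_st] at h3
    rw [← h3, mem_cj]
    have e : k⁻¹ * (k * a * k⁻¹) * k = a := by group
    rw [e]; exact haH

end Pool.Agent.V1174.CovP
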