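import Mathlib

set_option autoImplicit false

namespace Pool.Agent.V1174.CovP

variable {G : Type*} [Group G]

/-- the conjugate `g H g⁻¹` -/
def cj (g : G) (H : Subgroup G) : Subgroup G := H.map (MulAut.conj g).toMonoidHom

theorem mem_cj {g x : G} {H : Subgroup G} : x ∈ cj g H ↔ g⁻¹ * x * g ∈ H := by
  unfold cj
  rw [Subgroup.mem_map]
  constructor
  · rintro ⟨y, hy, rfl⟩
    have : g⁻¹ * ((MulAut.conj g).toMonoidHom y) * g = y := by
      simp [MulAut.conj_apply]
      group
    rwa [this]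
  · intro h
    refine ⟨_, h, ?_⟩
    simp [MulAut.conj_apply]
    group

theorem cj_one (H : Subgroup G) : cj 1 H = H := by
  ext x; rw [mem_cj]; simp

theorem cj_mul (g h : G) (H : Subgroup G) : cj (g * h) H = cj g (cj h H) := by
  ext x; rw [mem_cj, mem_cj, mem_cj]
  simp [mul_assoc]

theorem cj_inv_cj (g : G) (H : Subgroup G) : cj g⁻¹ (cj g H) = H := by
  rw [← cj_mul, inv_mul_cancel, cj_one]

theorem cj_cj_inv (g : G) (H : Subgroup G) : cj g (cj g⁻¹ H) = H := by
  rw [← cj_mul, mul_inv_cancel, cj_one]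

theorem cj_mono {g : G} {H K : Subgroup G} (h : H ≤ K) : cj g H ≤ cj g K :=
  Subgroup.map_mono h

theorem cj_le_iff {g : G} {H K : Subgroup G} : cj g H ≤ K ↔ H ≤ cj g⁻¹ K := by
  constructor
  · intro h
    have := cj_mono (g := g⁻¹) h
    rwa [cj_inv_cj] at this
  · intro h
    have := cj_mono (g := g) h
    rwa [cj_cj_inv] at this

theorem cj_sup (g : G) (H K : Subgroup G) : cj g (H ⊔ K) = cj g H ⊔ cj g K :=
  Subgroup.map_sup _ _ _

theorem cj_top (g : G) : cj g (⊤ : Subgroup G) = ⊤ := by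
  ext x; simp [mem_cj]

theorem cj_eq_top {g : G} {H : Subgroup G} : cj g H = ⊤ ↔ H = ⊤ := by
  constructor
  · intro h
    rw [← cj_inv_cj g H, h, cj_top]
  · rintro rfl; exact cj_top g

theorem cj_inj {g : G} {H K : Subgroup G} (h : cj g H = cj g K) : H = K := by
  rw [← cj_inv_cj g H, h, cj_inv_cj]

/-- the normaliser -/
def st (N : Subgroup G) : Subgroup G where
  carrier := {g | cj g N = N}
  one_mem' := cj_one N
  mul_mem' := by
    intro a b ha hb
    show cj (a * b) N = N
    rw [cj_mul, (hb : cj b N = N), (ha : cj a N = N)]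
  inv_mem' := by
    intro a ha
    show cj a⁻¹ N = N
    conv_lhs => rw [← (ha : cj a N = N)]
    exact cj_inv_cj a N

theorem mem_st {g : G} {N : Subgroup G} : g ∈ st N ↔ cj g N = N := Iff.rfl

theorem le_st (N : Subgroup G) : N ≤ st N := by
  intro g hg
  rw [mem_st]
  ext x
  rw [mem_cj]
  constructor
  · intro h
    have := N.mul_mem (N.mul_mem hg h) (N.inv_mem hg)
    have e : g * (g⁻¹ * x * g) * g⁻¹ = x := by group
    rwa [e] at this
  · intro h
    exact N.mul_mem (N.mul_mem (N.inv_mem hg) h) hg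

theorem st_sup {g : G} {M N : Subgroup G} (hM : g ∈ st M) (hN : g ∈ st N) : g ∈ st (M ⊔ N) := by
  rw [mem_st] at *
  rw [cj_sup, hM, hN]

theorem st_inf {g : G} {M N : Subgroup G} (hM : g ∈ st M) (hN : g ∈ st N) : g ∈ st (M ⊓ N) := by
  rw [mem_st] at *
  ext x
  rw [mem_cj, Subgroup.mem_inf, Subgroup.mem_inf, ← mem_cj, ← mem_cj, hM, hN]

/-- relative subnormality -/
inductive Sn (S : Subgroup G) : Subgroup G → Prop
  | refl : Sn S S
  | step (N H : Subgroup G) : Sn S N → N ≤ H → H ≤ st N → Sn S H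

theorem Sn.le {S H : Subgroup G} (h : Sn S H) : S ≤ H := by
  induction h with
  | refl => exact le_rfl
  | step N H _ h1 _ ih => exact ih.trans h1

theorem Sn.trans {S T H : Subgroup G} (h1 : Sn S T) (h2 : Sn T H) : Sn S H := by
  induction h2 with
  | refl => exact h1
  | step N H _ h3 h4 ih => exact Sn.step _ _ ih h3 h4

theorem st_cj {g : G} {N H : Subgroup G} (h : H ≤ st N) : cj g H ≤ st (cj g N) := by
  intro x hx
  rw [mem_cj] at hx
  have := h hx
  rw [mem_st] at this ⊢
  rw [← cj_mul]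
  have e : x * g = g * (g⁻¹ * x * g) := by group
  rw [e, cj_mul, this]

theorem Sn.conj {S H : Subgroup G} (g : G) (h : Sn S H) : Sn (cj g S) (cj g H) := by
  induction h with
  | refl => exact Sn.refl
  | step N H _ h1 h2 ih => exact Sn.step _ _ ih (cj_mono h1) (st_cj h2)

theorem Sn.inf {S H : Subgroup G} (h : Sn S H) (L : Subgroup G) (hL : S ≤ L) : Sn S (H ⊓ L) := by
  induction h with
  | refl => rw [inf_eq_left.2 hL]; exact Sn.refl
  | step N H _ h1 h2 ih =>
    refine Sn.step _ _ ih (inf_le_inf_right _ h1) ?_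
    intro x hx
    exact st_inf (h2 hx.1) (le_st L hx.2)

theorem Sn.restrict {S H L : Subgroup G} (h : Sn S H) (h1 : S ≤ L) (h2 : L ≤ H) : Sn S L := by
  have := h.inf L h1
  rwa [inf_eq_right.2 h2] at this

theorem Sn.sup_left {N R L : Subgroup G} (h : Sn R L) (hN : L ≤ st N) : Sn (N ⊔ R) (N ⊔ L) := by
  induction h with
  | refl => exact Sn.refl
  | step N' L _ h1 h2 ih =>
    refine Sn.step _ _ (ih (h1.trans hN)) (sup_le_sup_left h1 _) ?_
    refine sup_le ?_ ?_
    · exact le_sup_left.trans (le_st _)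
    · intro x hx
      exact st_sup (hN hx) (h2 hx)

/-- normal closure of `S` in `H` -/
def nc (S H : Subgroup G) : Subgroup G := ⨆ h : H, cj (h : G) S

theorem le_nc (S H : Subgroup G) : S ≤ nc S H := by
  refine le_trans (le_of_eq ?_) (le_iSup (fun h : H => cj (h : G) S) 1)
  show S = cj ((1 : H) : G) S
  rw [Subgroup.coe_one, cj_one]

theorem nc_le {S H N : Subgroup G} (h1 : S ≤ N) (h2 : H ≤ st N) : nc S H ≤ N := by
  refine iSup_le fun h => ?_
  have := cj_mono (g := (h : G)) h1
  rwa [mem_st.1 (h2 h.2)] at this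

theorem cj_iSup {ι : Sort*} (g : G) (f : ι → Subgroup G) : cj g (⨆ i, f i) = ⨆ i, cj g (f i) :=
  Subgroup.map_iSup _ _

theorem st_nc {r : G} {S H : Subgroup G} (h1 : r ∈ st S) (h2 : r ∈ st H) : r ∈ st (nc S H) := by
  have key : ∀ r : G, r ∈ st S → r ∈ st H → cj r (nc S H) ≤ nc S H := by
    intro r h1 h2
    unfold nc
    rw [cj_iSup]
    refine iSup_le fun h => ?_
    have hm : r * (h : G) * r⁻¹ ∈ H := by
      have : r * (h : G) * r⁻¹ ∈ cj r H := by
        rw [mem_cj]
        have e : r⁻¹ * (r * (h : G) * r⁻¹) * r = h := by group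
        rw [e]; exact h.2
      rwa [mem_st.1 h2] at this
    refine le_trans (le_of_eq ?_) (le_iSup (fun h : H => cj (h : G) S) ⟨_, hm⟩)
    show cj r (cj (h : G) S) = cj (r * (h : G) * r⁻¹) S
    rw [cj_mul, cj_mul]
    congr 2
    conv_rhs => rw [mem_st.1 (inv_mem h1)]
  rw [mem_st]
  apply le_antisymm (key r h1 h2)
  have := cj_mono (g := r) (key r⁻¹ (inv_mem h1) (inv_mem h2))
  rwa [cj_cj_inv] at this

theorem st_nc' {S H : Subgroup G} : H ≤ st (nc S H) := by
  have key : ∀ r ∈ H, cj r (nc S H) ≤ nc S H := by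
    intro r hr
    unfold nc
    rw [cj_iSup]
    refine iSup_le fun h => ?_
    rw [← cj_mul]
    exact le_iSup (fun h : H => cj (h : G) S) ⟨r * h, H.mul_mem hr h.2⟩
  intro r hr
  rw [mem_st]
  apply le_antisymm (key r hr)
  have := cj_mono (g := r) (key r⁻¹ (H.inv_mem hr))
  rwa [cj_cj_inv] at this

theorem nc_le_self {S H : Subgroup G} (h : S ≤ H) : nc S H ≤ H := nc_le h (le_st H)

theorem Sn.nc_lt {S H : Subgroup G} (h : Sn S H) : S = H ∨ nc S H < H := by
  induction h with
  | refl => exact Or.inl rfl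
  | step N H h0 h1 h2 ih =>
    by_cases hNH : N = H
    · subst hNH; exact ih
    · right
      exact lt_of_le_of_lt (nc_le h0.le h2) (lt_of_le_of_ne h1 hNH)

/-- join of a subnormal subgroup with a subnormal subgroup normalising it -/
theorem Sn.join [Finite G] (n : ℕ) : ∀ S H R : Subgroup G, Nat.card H ≤ n → Sn S H → R ≤ st S →
    R ≤ st H → Sn R (H ⊔ R) → Sn (S ⊔ R) (H ⊔ R) := by
  induction n with
  | zero =>
    intro S H R hn
    have : 0 < Nat.card H := Nat.card_pos
    omega
  | succ n ih =>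
    intro S H R hn hS h1 h2 hR
    rcases hS.nc_lt with rfl | hlt
    · exact Sn.refl
    · set N := nc S H with hN
      have hNle : N ≤ H := hlt.le
      have hSN : S ≤ N := le_nc S H
      have hcard : Nat.card N ≤ n := by
        have : Nat.card N < Nat.card H := by
          apply Set.ncard_lt_ncard (s := (N : Set G)) (t := (H : Set G)) ?_ (Set.toFinite _)
          exact hlt
        omega
      have hRN : R ≤ st N := fun r hr => st_nc (h1 hr) (h2 hr)
      have hle : N ⊔ R ≤ H ⊔ R := sup_le_sup_right hNle _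
      have e1 : Sn (S ⊔ R) (N ⊔ R) :=
        ih S N R hcard (hS.restrict hSN hNle) h1 hRN (hR.restrict le_sup_right hle)
      have hHR : H ⊔ R ≤ st N := sup_le st_nc' hRN
      have e2 : Sn (N ⊔ R) (H ⊔ R) := by
        have := Sn.sup_left hR hHR
        rwa [sup_eq_right.2 (hNle.trans (le_sup_left : H ≤ H ⊔ R))] at this
      exact e1.trans e2

theorem Sn.join' [Finite G] {S R H : Subgroup G} (hS : Sn S H) (hR : Sn R H) (h : R ≤ st S) :
    Sn (S ⊔ R) H := by
  have hRH : R ≤ H := hR.le
  have e : H ⊔ R = H := sup_eq_left.2 hRH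
  have := Sn.join (Nat.card H) S H R le_rfl hS h (hRH.trans (le_st H)) (by rwa [e])
  rwa [e] at this

theorem Sn.exists_conj {S K : Subgroup G} (h : Sn S K) (hn : ¬ K ≤ st S) :
    ∃ x ∈ K, cj x S ≠ S ∧ cj x S ≤ st S := by
  induction h with
  | refl => exact absurd (le_st _) hn
  | step N H h0 h1 h2 ih =>
    by_cases hN : N ≤ st S
    · obtain ⟨x, hx, hxs⟩ := SetLike.not_le_iff_exists.1 hn
      refine ⟨x, hx, hxs, ?_⟩
      have := cj_mono (g := x) h0.le
      rw [mem_st.1 (h2 hx)] at this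
      exact this.trans hN
    · obtain ⟨x, hx, h⟩ := ih hN
      exact ⟨x, h1 hx, h⟩

theorem card_cj (x : G) (S : Subgroup G) : Nat.card (cj x S) = Nat.card S :=
  Nat.card_congr (Subgroup.equivMapOfInjective S _ (MulAut.conj x).injective).symm.toEquiv

theorem cj_eq_of_le [Finite G] {x : G} {S : Subgroup G} (h : cj x S ≤ S) : cj x S = S :=
  Subgroup.eq_of_le_of_card_ge h (card_cj x S).ge

/-- Wielandt's zipper lemma -/
theorem zipper [Finite G] (S : Subgroup G) : (∀ H : Subgroup G, H ≠ ⊤ → S ≤ H → Sn S H) →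
    ¬ Sn S ⊤ → ∀ P Q : Subgroup G, IsCoatom P → IsCoatom Q → S ≤ P → S ≤ Q → P = Q := by
  induction S using WellFoundedGT.induction with
  | ind S ih =>
    intro hS hn
    have hst : st S ≠ ⊤ := by
      intro h
      exact hn (Sn.step _ _ Sn.refl le_top (by rw [h]))
    obtain ⟨M, hM, hSM⟩ := (eq_top_or_exists_le_coatom (st S)).resolve_left hst
    have key : ∀ K : Subgroup G, IsCoatom K → S ≤ K → K = M := by
      intro K hK hSK
      by_cases hKs : K ≤ st S
      · rcases hK.le_iff.1 (hKs.trans hSM) with h | h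
        · exact absurd h hM.1
        · exact h.symm
      · obtain ⟨x, hx, hxS, hxs⟩ := (hS K hK.1 hSK).exists_conj hKs
        set T := S ⊔ cj x S with hT
        have hxK : cj x S ≤ K := by
          have := cj_mono (g := x) hSK
          rwa [mem_st.1 (le_st K hx)] at this
        have hTK : T ≤ K := sup_le hSK hxK
        have hTs : T ≤ st S := sup_le (le_st S) hxs
        have hTM : T ≤ M := hTs.trans hSM
        have hlt : S < T := by
          refine lt_of_le_of_ne le_sup_left ?_
          intro h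
          apply hxS
          have h1 : cj x S ≤ S := (le_sup_right : cj x S ≤ S ⊔ cj x S).trans (le_of_eq h.symm)
          exact cj_eq_of_le h1
        have hTall : ∀ H : Subgroup G, H ≠ ⊤ → T ≤ H → Sn T H := by
          intro H hH hTH
          have h1 : Sn S H := hS H hH (le_sup_left.trans hTH)
          have h2 : Sn (cj x S) H := by
            have h3 : S ≤ cj x⁻¹ H := cj_le_iff.1 (le_sup_right.trans hTH)
            have h4 := (hS (cj x⁻¹ H) (fun h => hH (cj_eq_top.1 h)) h3).conj x
            rwa [cj_cj_inv] at h4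
          exact h1.join' h2 hxs
        have hTn : ¬ Sn T ⊤ := by
          intro h
          exact hn ((Sn.step _ _ Sn.refl le_sup_left hTs).trans h)
        exact ih T hlt hTall hTn K M hK hM hTK hTM
    intro P Q hP hQ hSP hSQ
    rw [key P hP hSP, key Q hQ hSQ]

end Pool.Agent.V1174.CovP
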